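import Pool.Agent.H125.SicGap.Plane

/-!
# Functions on the affine plane with constant sums over parallel lines: all directions
-/

set_option autoImplicit false

open Finset Polynomial

namespace Pool.Agent.H125.SicGap

variable {p : ℕ} [hp : Fact p.Prime] {k : Type*} [Field k] [CharP k p]

/-- the sums over parallel lines are equal, in every direction -/
def EqualLineSums (g : ZMod p × ZMod p → k) : Prop :=
  ∀ q : ZMod p × ZMod p, q ≠ 0 → ∃ σ : k, ∀ t : ZMod p,
    (∑ x : ZMod p × ZMod p, if q.1 * x.2 - q.2 * x.1 = t then g x else 0) = σ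

lemma pow_sum {n : ℕ} (hn : n ≤ p - 2) : ∑ t : ZMod p, io p k t ^ n = 0 := by
  have hp2 := hp.out.two_le
  have := FiniteField.sum_pow_lt_card_sub_one (K := ZMod p) n (by rw [ZMod.card]; omega)
  simp_rw [← map_pow]
  rw [← map_sum, this, map_zero]

omit [CharP k p] in
lemma fiber_sum (g : ZMod p × ZMod p → k) (L : ZMod p × ZMod p → ZMod p) (φ : ZMod p → k) :
    ∑ x, g x * φ (L x) = ∑ t, φ t * ∑ x, if L x = t then g x else 0 := by
  simp_rw [mul_sum]
  rw [sum_comm]
  refine sum_congr rfl fun x _ => ?_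
  rw [sum_eq_single (L x)]
  · rw [if_pos rfl, mul_comm]
  · intro t _ ht
    rw [if_neg (Ne.symm ht), mul_zero]
  · intro h; exact absurd (mem_univ _) h

omit [CharP k p] in
lemma form_sums {g : ZMod p × ZMod p → k} {u v : ZMod p} {σ : k}
    (h : ∀ t : ZMod p, (∑ x : ZMod p × ZMod p, if v * x.2 - (-u) * x.1 = t then g x else 0) = σ)
    (φ : ZMod p → k) :
    ∑ x, g x * φ (u * x.1 + v * x.2) = σ * ∑ t, φ t := by
  rw [fiber_sum g (fun x => u * x.1 + v * x.2) φ, mul_sum]
  refine sum_congr rfl fun t _ => ?_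
  rw [mul_comm σ]
  congr 1
  rw [← h t]
  refine sum_congr rfl fun x _ => ?_
  have : v * x.2 - (-u) * x.1 = u * x.1 + v * x.2 := by ring
  rw [this]

lemma reidx {M : Type*} [AddCommMonoid M] (s : ZMod p) (F : ZMod p × ZMod p → M) :
    ∑ a, ∑ y, F (y, a + s * y) = ∑ x, F x := by
  rw [sum_comm, Fintype.sum_prod_type]
  refine sum_congr rfl fun y _ => ?_
  exact Fintype.sum_equiv (Equiv.addRight (s * y)) _ _ (fun a => rfl)

omit [CharP k p] in
/-- the columns of the direction `s` -/
lemma col_sum {g : ZMod p × ZMod p → k} {s : ZMod p} {σ : k}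
    (h : ∀ t : ZMod p, (∑ x : ZMod p × ZMod p, if (1 : ZMod p) * x.2 - s * x.1 = t then g x else 0) = σ)
    (a : ZMod p) : ∑ y, g (y, a + s * y) = σ := by
  rw [← h a, ← reidx s (fun x : ZMod p × ZMod p =>
    if (1 : ZMod p) * x.2 - s * x.1 = a then g x else 0)]
  symm
  rw [sum_eq_single a]
  · refine sum_congr rfl fun y _ => ?_
    rw [if_pos (by ring)]
  · intro b _ hb
    refine sum_eq_zero fun y _ => ?_
    rw [if_neg]
    intro h2
    apply hb
    rw [← h2]; ring
  · intro h; exact absurd (mem_univ _) h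

lemma lin_sum {g : ZMod p × ZMod p → k} (s t : ZMod p) {σ : k}
    (h : ∀ c : ZMod p, (∑ x : ZMod p × ZMod p, if (1 : ZMod p) * x.2 - (s - t) * x.1 = c then g x else 0) = σ)
    (n : ℕ) :
    ∑ a, ∑ y, g (y, a + s * y) * (io p k a + io p k t * io p k y) ^ n = σ * ∑ c, io p k c ^ n := by
  have h1 := reidx s (fun x : ZMod p × ZMod p => g x * io p k ((t - s) * x.1 + 1 * x.2) ^ n)
  have h2 := form_sums (g := g) (u := t - s) (v := 1) (σ := σ) (by
    intro c
    rw [← h c]
    refine sum_congr rfl fun x _ => ?_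
    rw [neg_sub]) (fun c => io p k c ^ n)
  rw [← h2, ← h1]
  refine sum_congr rfl fun a _ => sum_congr rfl fun y _ => ?_
  congr 2
  rw [← map_mul, ← map_add]
  congr 1
  ring

variable [DecidableEq k]

omit [CharP k p] in
lemma card_dir (g : ZMod p × ZMod p → k) (s : ZMod p) :
    ∑ a, Nc (fun a y => g (y, a + s * y)) a = (univ.filter fun x => g x ≠ 0).card := by
  rw [card_filter, ← reidx s]
  unfold Nc
  simp_rw [card_filter]

lemma plane_A (hp3 : 3 ≤ p) (g : ZMod p × ZMod p → k) (hR : EqualLineSums g)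
    (hcard : (univ.filter fun x => g x ≠ 0).card < 2 * p - 2) (s : ZMod p) {σ : k} (hσ : σ ≠ 0)
    (hs : ∀ t : ZMod p, (∑ x : ZMod p × ZMod p, if (1 : ZMod p) * x.2 - s * x.1 = t then g x else 0) = σ) :
    ∃ u v w : ZMod p, (u ≠ 0 ∨ v ≠ 0) ∧ ∃ κ : k, κ ≠ 0 ∧
      ∀ x : ZMod p × ZMod p, g x = if u * x.1 + v * x.2 = w then κ else 0 := by
  obtain ⟨α, β, h⟩ := line_of_small hp3 (fun a y => g (y, a + s * y)) (by
    intro t n hn
    obtain ⟨τ, hτ⟩ := hR (1, s - t) (by intro h; exact one_ne_zero (congrArg Prod.fst h))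
    rw [lin_sum s t hτ n, pow_sum hn, mul_zero]) hσ (col_sum hs) (by rw [card_dir]; exact hcard)
  refine ⟨1 + α * s, -α, β, ?_, σ, hσ, fun x => ?_⟩
  · by_cases hα : α = 0
    · left; rw [hα, zero_mul, add_zero]; exact one_ne_zero
    · right; exact neg_ne_zero.2 hα
  · have h1 := h (x.2 - s * x.1) x.1
    simp only [sub_add_cancel] at h1
    change g (x.1, x.2) = _
    rw [h1]
    have : x.1 = α * (x.2 - s * x.1) + β ↔ (1 + α * s) * x.1 + -α * x.2 = β := by
      constructor
      · intro h2; linear_combination h2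
      · intro h2; linear_combination h2
    simp only [this]

/-- **second weight**: a nonzero function on the plane over `𝔽_p` with equal sums over parallel
lines, nonzero at fewer than `2 p - 2` points, is a multiple of the indicator function of a line -/
theorem plane_gap (hp3 : 3 ≤ p) (g : ZMod p × ZMod p → k) (hR : EqualLineSums g) (hg : g ≠ 0)
    (hcard : (univ.filter fun x => g x ≠ 0).card < 2 * p - 2) :
    ∃ u v w : ZMod p, (u ≠ 0 ∨ v ≠ 0) ∧ ∃ κ : k, κ ≠ 0 ∧
      ∀ x : ZMod p × ZMod p, g x = if u * x.1 + v * x.2 = w then κ else 0 := by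
  classical
  have h1 : ∀ s : ZMod p, ∃ σ : k, ∀ t : ZMod p,
      (∑ x : ZMod p × ZMod p, if (1 : ZMod p) * x.2 - s * x.1 = t then g x else 0) = σ := fun s =>
    hR (1, s) (by intro h; exact one_ne_zero (congrArg Prod.fst h))
  choose σ hσ using h1
  by_cases hA : ∃ s, σ s ≠ 0
  · obtain ⟨s, hs⟩ := hA
    exact plane_A hp3 g hR hcard s hs (hσ s)
  push Not at hA
  exfalso
  obtain ⟨x0, hx0⟩ : ∃ x, g x ≠ 0 := by
    by_contra h0
    push Not at h0
    exact hg (funext h0)
  -- a line through `x0` with exactly two points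
  have h2 : ∃ s : ZMod p, Nc (fun a y => g (y, a + s * y)) (x0.2 - s * x0.1) = 2 := by
    by_contra hno
    push Not at hno
    set T : ZMod p → Finset (ZMod p × ZMod p) := fun s =>
      (univ.filter fun x => g x ≠ 0 ∧ x ≠ x0 ∧ x.2 - s * x.1 = x0.2 - s * x0.1) with hT
    have h3 : ∀ s, 2 ≤ (T s).card := by
      intro s
      have h4 := hno s
      unfold Nc at h4
      set Y := univ.filter fun y : ZMod p => g (y, x0.2 - s * x0.1 + s * y) ≠ 0 with hY
      have hx0Y : x0.1 ∈ Y := by
        refine mem_filter.2 ⟨mem_univ _, ?_⟩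
        rw [sub_add_cancel]; exact hx0
      have h5 : Y.card ≠ 1 := by
        intro h6
        obtain ⟨y1, hy1⟩ := card_eq_one.1 h6
        have h7 := col_sum (hσ s) (x0.2 - s * x0.1)
        rw [hA s, sum_eq_single x0.1] at h7
        · rw [sub_add_cancel] at h7
          exact hx0 h7
        · intro y _ hy
          by_contra h8
          have h9 : y ∈ Y := mem_filter.2 ⟨mem_univ _, h8⟩
          rw [hy1, mem_singleton] at h9 hx0Y
          exact hy (h9.trans hx0Y.symm)
        · intro h; exact absurd (mem_univ _) h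
      have h6 : 0 < Y.card := card_pos.2 ⟨_, hx0Y⟩
      have h7 : 2 ≤ (Y.erase x0.1).card := by
        rw [card_erase_of_mem hx0Y]; omega
      refine h7.trans ?_
      refine card_le_card_of_injOn (fun y => (y, x0.2 - s * x0.1 + s * y)) ?_ ?_
      · intro y hy
        have hy1 := mem_erase.1 hy
        refine mem_filter.2 ⟨mem_univ _, (mem_filter.1 hy1.2).2, ?_, ?_⟩
        · intro h8
          exact hy1.1 (congrArg Prod.fst h8)
        · simp
      · intro y _ y' _ h8
        exact congrArg Prod.fst h8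
    have h4 : (univ.biUnion T).card = ∑ s, (T s).card := by
      refine card_biUnion fun s _ s' _ hss => ?_
      change Disjoint (T s) (T s')
      rw [disjoint_left]
      intro x hx hx'
      obtain ⟨-, -, hxx, e1⟩ := mem_filter.1 hx
      obtain ⟨-, -, -, e2⟩ := mem_filter.1 hx'
      have e3 : (s - s') * (x.1 - x0.1) = 0 := by linear_combination e2 - e1
      rcases mul_eq_zero.1 e3 with e4 | e4
      · exact hss (sub_eq_zero.1 e4)
      · apply hxx
        have e5 := sub_eq_zero.1 e4
        rw [e5] at e1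
        have e6 : x.2 = x0.2 := by linear_combination e1
        exact Prod.ext e5 e6
    have h5 : (univ.biUnion T).card ≤ (univ.filter fun x => g x ≠ 0).card := by
      refine card_le_card fun x hx => ?_
      obtain ⟨s, -, hs⟩ := mem_biUnion.1 hx
      exact mem_filter.2 ⟨mem_univ _, (mem_filter.1 hs).2.1⟩
    have h6 : 2 * p ≤ ∑ s : ZMod p, (T s).card := by
      calc 2 * p = ∑ s : ZMod p, 2 := by rw [sum_const, card_univ, ZMod.card, smul_eq_mul, mul_comm]
        _ ≤ _ := sum_le_sum fun s _ => h3 s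
    omega
  obtain ⟨s, hs⟩ := h2
  have h3 := large_of_two hp3 (fun a y => g (y, a + s * y)) (by
    intro t n _
    rw [lin_sum s t (hσ (s - t)) n, hA, zero_mul]) (by
      intro a; rw [col_sum (hσ s) a, hA]) hs
  rw [card_dir] at h3
  omega

end Pool.Agent.H125.SicGap
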