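import Mathlib

/-!
# Functions on `(ℤ/d)²` which are their own symplectic Fourier transforms: small supports
-/

set_option autoImplicit false

open Finset

namespace Pool.Agent.H125.SicGap

/-- the standard additive character of `ℤ/d` -/
noncomputable abbrev ch {d : ℕ} [NeZero d] (x : ZMod d) : ℂ := ZMod.stdAddChar x

variable {d : ℕ} [NeZero d]

lemma ch_norm (x : ZMod d) : ‖ch x‖ = 1 := by
  unfold ch
  rw [ZMod.stdAddChar_apply]
  exact Circle.norm_coe _

lemma ch_add (x y : ZMod d) : ch (x + y) = ch x * ch y := AddChar.map_add_eq_mul _ _ _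

lemma ch_zero : ch (0 : ZMod d) = 1 := AddChar.map_zero_eq_one _

lemma ch_neg (x : ZMod d) : (starRingEnd ℂ) (ch x) = ch (-x) :=
  (AddChar.map_neg_eq_conj _ _).symm

lemma ch_ne_zero (x : ZMod d) : ch x ≠ 0 := by
  intro h
  have := ch_norm x
  rw [h, norm_zero] at this
  exact zero_ne_one this

lemma sum_ch (b : ZMod d) : ∑ x, ch (b * x) = if b = 0 then (d : ℂ) else 0 := by
  have := AddChar.sum_mulShift b (ZMod.isPrimitive_stdAddChar d)
  rw [ZMod.card] at this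
  simp_rw [mul_comm b]
  exact_mod_cast this

lemma ch_eq_one {x : ZMod d} (h : ch x = 1) : x = 0 := by
  have h1 := ZMod.injective_stdAddChar (N := d)
  apply h1
  rw [AddChar.map_zero_eq_one]
  exact h

/-- `h` is `1/d` times its symplectic Fourier transform -/
def SelfDual (h : ZMod d × ZMod d → ℂ) : Prop :=
  ∀ q : ZMod d × ZMod d, ∑ x : ZMod d × ZMod d, ch (x.1 * q.2 - x.2 * q.1) * h x = d * h q

lemma all_eq {ι : Type*} (T : Finset ι) (z : ι → ℂ) (w : ℂ) (hz : ∀ i ∈ T, ‖z i‖ ≤ ‖w‖)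
    (hsum : ∑ i ∈ T, z i = T.card * w) : ∀ i ∈ T, z i = w := by
  have h1 : ∀ i ∈ T, 0 ≤ ‖w‖ ^ 2 - (z i * (starRingEnd ℂ) w).re := by
    intro i hi
    have h2 : (z i * (starRingEnd ℂ) w).re ≤ ‖z i * (starRingEnd ℂ) w‖ := Complex.re_le_norm _
    rw [norm_mul, RCLike.norm_conj] at h2
    have h3 := mul_le_mul_of_nonneg_right (hz i hi) (norm_nonneg w)
    nlinarith
  have h2 : ∑ i ∈ T, (‖w‖ ^ 2 - (z i * (starRingEnd ℂ) w).re) = 0 := by
    rw [sum_sub_distrib, sum_const, nsmul_eq_mul, sub_eq_zero]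
    have h3 : ∑ i ∈ T, (z i * (starRingEnd ℂ) w).re = ((∑ i ∈ T, z i) * (starRingEnd ℂ) w).re := by
      rw [sum_mul, Complex.re_sum]
    rw [h3, hsum, mul_assoc, Complex.mul_conj, Complex.normSq_eq_norm_sq]
    rw [← Complex.ofReal_natCast, ← Complex.ofReal_mul, Complex.ofReal_re]
  intro i hi
  have h3 := (sum_eq_zero_iff_of_nonneg h1).1 h2 i hi
  have h4 : ‖z i - w‖ ^ 2 ≤ 0 := by
    rw [← Complex.normSq_eq_norm_sq, Complex.normSq_sub, Complex.normSq_eq_norm_sq,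
      Complex.normSq_eq_norm_sq]
    have h5 := hz i hi
    have h6 := norm_nonneg (z i)
    nlinarith
  have h5 : ‖z i - w‖ = 0 := by
    have := norm_nonneg (z i - w)
    nlinarith
  exact sub_eq_zero.1 (norm_eq_zero.1 h5)

lemma sum_supp (h : ZMod d × ZMod d → ℂ) (q : ZMod d × ZMod d) :
    ∑ x ∈ univ.filter (fun x => h x ≠ 0), ch (x.1 * q.2 - x.2 * q.1) * h x =
      ∑ x : ZMod d × ZMod d, ch (x.1 * q.2 - x.2 * q.1) * h x := by
  refine sum_subset (subset_univ _) fun x _ hx => ?_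
  have : h x = 0 := by
    by_contra h1
    exact hx (mem_filter.2 ⟨mem_univ _, h1⟩)
  rw [this, mul_zero]

/-- uncertainty principle -/
theorem card_supp {h : ZMod d × ZMod d → ℂ} (hs : SelfDual h) (h0 : h ≠ 0) :
    d ≤ (univ.filter fun x => h x ≠ 0).card := by
  obtain ⟨q, hq⟩ := Finite.exists_max fun x => ‖h x‖
  have hq0 : 0 < ‖h q‖ := by
    by_contra h1
    apply h0
    funext x
    have := hq x
    exact norm_eq_zero.1 (le_antisymm (this.trans (not_lt.1 h1)) (norm_nonneg _))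
  have h1 : (d : ℝ) * ‖h q‖ ≤ (univ.filter fun x => h x ≠ 0).card * ‖h q‖ := by
    calc (d : ℝ) * ‖h q‖ = ‖(d : ℂ) * h q‖ := by rw [norm_mul, Complex.norm_natCast]
      _ = ‖∑ x ∈ univ.filter (fun x => h x ≠ 0), ch (x.1 * q.2 - x.2 * q.1) * h x‖ := by
          rw [sum_supp, hs q]
      _ ≤ ∑ x ∈ univ.filter (fun x => h x ≠ 0), ‖ch (x.1 * q.2 - x.2 * q.1) * h x‖ :=
          norm_sum_le _ _
      _ ≤ ∑ x ∈ univ.filter (fun x => h x ≠ 0), ‖h q‖ := by
          refine sum_le_sum fun x _ => ?_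
          rw [norm_mul, ch_norm, one_mul]
          exact hq x
      _ = _ := by rw [sum_const, nsmul_eq_mul]
  exact_mod_cast le_of_mul_le_mul_right h1 hq0

/-- the equality case of the uncertainty principle -/
theorem extremal {h : ZMod d × ZMod d → ℂ} (hs : SelfDual h) (h0 : h 0 ≠ 0)
    (hc : (univ.filter fun x => h x ≠ 0).card = d) :
    (∀ x, h x ≠ 0 → h x = h 0) ∧
    (∀ x y : ZMod d × ZMod d, h x ≠ 0 → h y ≠ 0 → x.1 * y.2 = x.2 * y.1) ∧
    (∀ x y, h x ≠ 0 → h y ≠ 0 → h (x + y) ≠ 0) ∧ (∀ x, h x ≠ 0 → h (-x) ≠ 0) := by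
  obtain ⟨q, hq⟩ := Finite.exists_max fun x => ‖h x‖
  set T := univ.filter fun x => h x ≠ 0 with hT
  have hmem : ∀ x, x ∈ T ↔ h x ≠ 0 := fun x => by rw [hT, mem_filter]; exact and_iff_right (mem_univ _)
  have key : ∀ y, (∀ x, ‖h x‖ ≤ ‖h y‖) → ∀ x ∈ T, ch (x.1 * y.2 - x.2 * y.1) * h x = h y := by
    intro y hy
    refine all_eq T _ _ (fun x _ => ?_) ?_
    · rw [norm_mul, ch_norm, one_mul]; exact hy x
    · rw [sum_supp, hs y, hc]
  have hmax : ∀ y ∈ T, ∀ x, ‖h x‖ ≤ ‖h y‖ := by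
    intro y hy x
    have h1 := key q hq y hy
    have h2 : ‖h y‖ = ‖h q‖ := by
      rw [← h1, norm_mul, ch_norm, one_mul]
    rw [h2]; exact hq x
  have hconst : ∀ x ∈ T, h x = h 0 := by
    intro x hx
    have h1 := key 0 (hmax 0 ((hmem 0).2 h0)) x hx
    simp only [Prod.fst_zero, Prod.snd_zero, mul_zero, sub_zero] at h1
    rw [ch_zero, one_mul] at h1
    exact h1
  have hch : ∀ x ∈ T, ∀ y ∈ T, ch (x.1 * y.2 - x.2 * y.1) = 1 := by
    intro x hx y hy
    have h1 := key y (hmax y hy) x hx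
    rw [hconst x hx, hconst y hy] at h1
    exact mul_right_cancel₀ h0 (by rw [h1, one_mul])
  have hin : ∀ y : ZMod d × ZMod d, (∀ x ∈ T, ch (x.1 * y.2 - x.2 * y.1) = 1) → h y ≠ 0 := by
    intro y hy h1
    have h2 := hs y
    rw [← sum_supp, h1, mul_zero] at h2
    have h3 : ∑ x ∈ T, ch (x.1 * y.2 - x.2 * y.1) * h x = d * h 0 := by
      rw [sum_congr rfl fun x hx => by rw [hy x hx, hconst x hx, one_mul], sum_const, hc,
        nsmul_eq_mul]
    rw [h3] at h2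
    exact mul_ne_zero (by exact_mod_cast NeZero.ne d) h0 h2
  refine ⟨fun x hx => hconst x ((hmem x).2 hx), fun x y hx hy => ?_, fun x y hx hy => ?_,
    fun x hx => ?_⟩
  · exact sub_eq_zero.1 (ch_eq_one (hch x ((hmem x).2 hx) y ((hmem y).2 hy)))
  · refine hin _ fun z hz => ?_
    have h1 := hch z hz x ((hmem x).2 hx)
    have h2 := hch z hz y ((hmem y).2 hy)
    have e : z.1 * (x + y).2 - z.2 * (x + y).1 = (z.1 * x.2 - z.2 * x.1) + (z.1 * y.2 - z.2 * y.1) := by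
      simp only [Prod.snd_add, Prod.fst_add]; ring
    rw [e, ch_add, h1, h2, one_mul]
  · refine hin _ fun z hz => ?_
    have h1 := hch z hz x ((hmem x).2 hx)
    have e : (z.1 * (-x).2 - z.2 * (-x).1) + (z.1 * x.2 - z.2 * x.1) = 0 := by
      simp only [Prod.snd_neg, Prod.fst_neg]; ring
    have h2 := ch_add (z.1 * (-x).2 - z.2 * (-x).1) (z.1 * x.2 - z.2 * x.1)
    rw [e, ch_zero, h1, mul_one] at h2
    exact h2.symm

end Pool.Agent.H125.SicGap
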