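import Pool.Agent.H125.SicGap.Dir
import Pool.Agent.H125.SicGap.Unc
import Pool.Agent.Q147.GP.Place

/-!
# Even self-dual functions on `(ℤ/p)²` with support smaller than `2p - 2`
-/

set_option autoImplicit false

open Finset

namespace Pool.Agent.H125.SicGap

variable {p : ℕ} [hp : Fact p.Prime]

/-- the line sums of a self-dual function -/
lemma line_sum {h : ZMod p × ZMod p → ℂ} (hs : SelfDual h) (q : ZMod p × ZMod p) (t : ZMod p) :
    (∑ x : ZMod p × ZMod p, if q.1 * x.2 - q.2 * x.1 = t then h x else 0) =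
      ∑ c : ZMod p, ch (c * t) * h (c * q.1, c * q.2) := by
  have hp0 : (p : ℂ) ≠ 0 := by exact_mod_cast hp.out.ne_zero
  apply mul_left_cancel₀ hp0
  have e1 : ∀ x : ZMod p × ZMod p,
      (p : ℂ) * (if q.1 * x.2 - q.2 * x.1 = t then h x else 0) =
        ∑ c : ZMod p, ch (-(c * t)) * (ch (x.1 * (-(c * q.2)) - x.2 * (-(c * q.1))) * h x) := by
    intro x
    have h1 := sum_ch (d := p) (q.1 * x.2 - q.2 * x.1 - t)
    have h2 : (p : ℂ) * (if q.1 * x.2 - q.2 * x.1 = t then h x else 0) =
        (if q.1 * x.2 - q.2 * x.1 - t = 0 then (p : ℂ) else 0) * h x := by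
      by_cases hc : q.1 * x.2 - q.2 * x.1 = t
      · rw [if_pos hc, if_pos (sub_eq_zero.2 hc)]
      · rw [if_neg hc, if_neg (fun h3 => hc (sub_eq_zero.1 h3)), mul_zero, zero_mul]
    rw [h2, ← h1, sum_mul]
    refine sum_congr rfl fun c _ => ?_
    rw [← mul_assoc, ← ch_add]
    congr 2
    ring
  rw [mul_sum, sum_congr rfl fun x _ => e1 x, sum_comm]
  have e2 : ∀ c : ZMod p, (∑ x : ZMod p × ZMod p,
      ch (-(c * t)) * (ch (x.1 * (-(c * q.2)) - x.2 * (-(c * q.1))) * h x)) =
        (p : ℂ) * (ch (-(c * t)) * h (-(c * q.1), -(c * q.2))) := by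
    intro c
    rw [← mul_sum]
    have := hs (-(c * q.1), -(c * q.2))
    rw [this]
    ring
  rw [sum_congr rfl fun c _ => e2 c, ← mul_sum]
  congr 1
  refine (Fintype.sum_equiv (Equiv.neg (ZMod p)) _ _ fun c => ?_)
  simp only [Equiv.neg_apply, neg_mul]

lemma line_param {u v : ZMod p} (huv : u ≠ 0 ∨ v ≠ 0) :
    (univ.filter fun x : ZMod p × ZMod p => u * x.1 + v * x.2 = 0) =
      univ.image (fun c : ZMod p => ((c * v, -(c * u)) : ZMod p × ZMod p)) := by
  ext x
  simp only [mem_filter, mem_univ, true_and, mem_image]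
  constructor
  · intro hx
    rcases huv with hu | hv
    · refine ⟨-x.2 / u, ?_⟩
      refine Prod.ext ?_ ?_
      · simp only
        field_simp
        linear_combination (-1 : ZMod p) * hx
      · simp only
        field_simp
    · refine ⟨x.1 / v, ?_⟩
      refine Prod.ext ?_ ?_
      · simp only
        field_simp
      · simp only
        field_simp
        linear_combination (-1 : ZMod p) * hx
  · rintro ⟨c, rfl⟩
    ring

lemma line_inj {u v : ZMod p} (huv : u ≠ 0 ∨ v ≠ 0) :
    Function.Injective (fun c : ZMod p => ((c * v, -(c * u)) : ZMod p × ZMod p)) := by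
  intro a b hab
  simp only [Prod.mk.injEq, neg_inj] at hab
  rcases huv with hu | hv
  · exact mul_right_cancel₀ hu hab.2
  · exact mul_right_cancel₀ hv hab.1

lemma line_card {u v : ZMod p} (huv : u ≠ 0 ∨ v ≠ 0) :
    (univ.filter fun x : ZMod p × ZMod p => u * x.1 + v * x.2 = 0).card = p := by
  rw [line_param huv, card_image_of_injective _ (line_inj huv), card_univ, ZMod.card]

/-- lines through the origin are self-dual -/
lemma line_selfDual {u v : ZMod p} (huv : u ≠ 0 ∨ v ≠ 0) (κ : ℂ) :
    SelfDual (fun x : ZMod p × ZMod p => if u * x.1 + v * x.2 = 0 then κ else 0) := by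
  intro q
  have h1 : ∑ x : ZMod p × ZMod p, ch (x.1 * q.2 - x.2 * q.1) *
      (if u * x.1 + v * x.2 = 0 then κ else 0) =
      ∑ x ∈ univ.filter (fun x : ZMod p × ZMod p => u * x.1 + v * x.2 = 0),
        ch (x.1 * q.2 - x.2 * q.1) * κ := by
    rw [sum_filter]
    refine sum_congr rfl fun x _ => ?_
    by_cases hx : u * x.1 + v * x.2 = 0
    · rw [if_pos hx, if_pos hx]
    · rw [if_neg hx, if_neg hx, mul_zero]
  rw [h1, line_param huv, sum_image fun a _ b _ hab => line_inj huv hab, ← sum_mul]
  have h2 : ∑ c : ZMod p, ch (c * v * q.2 - -(c * u) * q.1) =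
      if u * q.1 + v * q.2 = 0 then (p : ℂ) else 0 := by
    rw [← sum_ch]
    refine sum_congr rfl fun c _ => ?_
    congr 1
    ring
  rw [h2]
  by_cases hq : u * q.1 + v * q.2 = 0
  · simp only [if_pos hq]
  · simp only [if_neg hq, zero_mul, mul_zero]

section place

variable (V : ValuationSubring ℂ)

lemma charP_res (hV : V.valuation (p : ℂ) < 1) : CharP (IsLocalRing.ResidueField V) p := by
  rw [CharP.charP_iff_prime_eq_zero hp.out]
  have h1 : IsLocalRing.residue V ((p : V)) = 0 := by
    rw [IsLocalRing.residue_eq_zero_iff, IsLocalRing.mem_maximalIdeal, mem_nonunits_iff]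
    exact (V.valuation_lt_one_iff (p : V)).2 (by simpa using hV)
  rw [← h1, map_natCast]

lemma ch_pow (t : ZMod p) : ch t ^ p = 1 := by
  unfold ch
  rw [← AddChar.map_nsmul_eq_pow, nsmul_eq_mul, CharP.cast_eq_zero, zero_mul,
    AddChar.map_zero_eq_one]

lemma ch_mem (t : ZMod p) : ch t ∈ V := by
  have h1 := ch_pow t
  rw [← V.valuation_le_one_iff]
  have h2 : V.valuation (ch t) ^ p = 1 := by rw [← map_pow, h1, map_one]
  by_contra h3
  push Not at h3
  have h4 := one_lt_pow₀ h3 hp.out.ne_zero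
  rw [h2] at h4
  exact lt_irrefl _ h4

lemma res_ch (hV : V.valuation (p : ℂ) < 1) (t : ZMod p) :
    IsLocalRing.residue V ⟨ch t, ch_mem V t⟩ = 1 := by
  have := charP_res V hV
  have h1 : (IsLocalRing.residue V ⟨ch t, ch_mem V t⟩) ^ p = 1 := by
    rw [← map_pow]
    have : (⟨ch t, ch_mem V t⟩ : V) ^ p = 1 := Subtype.ext (by
      simpa using ch_pow t)
    rw [this, map_one]
  have h2 : (IsLocalRing.residue V ⟨ch t, ch_mem V t⟩ - 1) ^ p = 0 := by
    rw [sub_pow_char, h1, one_pow, sub_self]
  exact sub_eq_zero.1 (pow_eq_zero_iff hp.out.ne_zero |>.1 h2)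

end place

/-- the support of an even self-dual function with support of size less than `2p - 2` contains a
line through the origin -/
lemma contains_line (hp3 : 3 ≤ p) {h : ZMod p × ZMod p → ℂ} (hs : SelfDual h)
    (he : ∀ x, h (-x) = h x) (h0 : h ≠ 0)
    (hc : (univ.filter fun x => h x ≠ 0).card < 2 * p - 2) :
    ∃ u v : ZMod p, (u ≠ 0 ∨ v ≠ 0) ∧ ∀ x : ZMod p × ZMod p, u * x.1 + v * x.2 = 0 → h x ≠ 0 := by
  classical
  have hP : (Ideal.span {(p : ℤ)}).IsPrime := by
    rw [Ideal.span_singleton_prime (by exact_mod_cast hp.out.ne_zero)]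
    exact Nat.prime_iff_prime_int.1 hp.out
  obtain ⟨V, hV⟩ := Pool.Agent.Q147.GP.place_of_prime (Int.castRingHom ℂ)
    (RingHom.injective_int _) (Ideal.span {(p : ℤ)}) (hP := hP)
  have hVp : V.valuation (p : ℂ) < 1 := by
    have := (hV (p : ℤ)).2.2 (Ideal.mem_span_singleton_self _)
    simpa using this
  have := charP_res V hVp
  obtain ⟨x0, hx0⟩ := Finite.exists_max fun x => V.valuation (h x)
  have hne : h x0 ≠ 0 := by
    intro h1
    apply h0
    funext x
    have h2 := hx0 x
    simp only [h1, map_zero] at h2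
    exact (map_eq_zero _).1 (le_antisymm h2 zero_le)
  have hm : ∀ x, h x / h x0 ∈ V := by
    intro x
    rw [← V.valuation_le_one_iff, map_div₀]
    exact div_le_one_of_le₀ (hx0 x) zero_le
  set g : ZMod p × ZMod p → IsLocalRing.ResidueField V := fun x =>
    IsLocalRing.residue V ⟨h x / h x0, hm x⟩ with hg
  have hsupp : ∀ x, g x ≠ 0 → h x ≠ 0 := by
    intro x h1 h2
    apply h1
    have : (⟨h x / h x0, hm x⟩ : V) = 0 := Subtype.ext (by simp [h2])
    rw [hg]
    simp only
    rw [this, map_zero]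
  have hgx0 : g x0 = 1 := by
    have : (⟨h x0 / h x0, hm x0⟩ : V) = 1 := Subtype.ext (by simp [hne])
    rw [hg]
    simp only
    rw [this, map_one]
  have hg0 : g ≠ 0 := by
    intro h1
    rw [h1] at hgx0
    exact zero_ne_one hgx0
  have hge : ∀ x, g (-x) = g x := by
    intro x
    rw [hg]
    simp only
    congr 2
    rw [he x]
  have hcard : (univ.filter fun x => g x ≠ 0).card < 2 * p - 2 := by
    refine lt_of_le_of_lt (card_le_card fun x hx => ?_) hc
    rw [mem_filter] at hx ⊢
    exact ⟨hx.1, hsupp x hx.2⟩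
  have hR : EqualLineSums g := by
    intro q hq
    refine ⟨∑ c : ZMod p, g (c * q.1, c * q.2), fun t => ?_⟩
    have h1 : (∑ x : ZMod p × ZMod p,
        if q.1 * x.2 - q.2 * x.1 = t then (⟨h x / h x0, hm x⟩ : V) else 0) =
        ∑ c : ZMod p, (⟨ch (c * t), ch_mem V _⟩ : V) *
          ⟨h (c * q.1, c * q.2) / h x0, hm (c * q.1, c * q.2)⟩ := by
      apply Subtype.ext
      push_cast
      have h2 := line_sum hs q t
      have h3 : ∀ x : ZMod p × ZMod p,
          (((if q.1 * x.2 - q.2 * x.1 = t then (⟨h x / h x0, hm x⟩ : V) else 0 : V)) : ℂ) =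
          (if q.1 * x.2 - q.2 * x.1 = t then h x else 0) / h x0 := by
        intro x
        split_ifs
        · rfl
        · simp
      rw [sum_congr rfl fun x _ => h3 x, ← sum_div, h2, sum_div]
      exact sum_congr rfl fun c _ => mul_div_assoc _ _ _
    have h4 := congrArg (IsLocalRing.residue V) h1
    rw [map_sum, map_sum] at h4
    have h5 : ∀ x : ZMod p × ZMod p, (if q.1 * x.2 - q.2 * x.1 = t then g x else 0) =
        IsLocalRing.residue V
          (if q.1 * x.2 - q.2 * x.1 = t then (⟨h x / h x0, hm x⟩ : V) else 0) := by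
      intro x
      split_ifs
      · rfl
      · rw [map_zero]
    rw [sum_congr rfl fun x _ => h5 x, h4]
    refine sum_congr rfl fun c _ => ?_
    rw [map_mul, res_ch V hVp, one_mul]
  obtain ⟨u, v, w, huv, κ, hκ, hgL⟩ := plane_gap hp3 g hR hg0 hcard
  have hw : w = 0 := by
    obtain ⟨x, hx⟩ : ∃ x : ZMod p × ZMod p, u * x.1 + v * x.2 = w := by
      rcases huv with hu | hv
      · exact ⟨(w / u, 0), by simp only [mul_zero, add_zero]; field_simp⟩
      · exact ⟨(0, w / v), by simp only [mul_zero, zero_add]; field_simp⟩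
    have h1 := hge x
    rw [hgL x, if_pos hx, hgL (-x)] at h1
    by_contra hw0
    have h2 : ¬ (u * (-x).1 + v * (-x).2 = w) := by
      intro h3
      simp only [Prod.fst_neg, Prod.snd_neg] at h3
      have h4 : (2 : ZMod p) * w = 0 := by linear_combination (-1 : ZMod p) * hx - h3
      rcases mul_eq_zero.1 h4 with h5 | h5
      · have h6 : ((2 : ℕ) : ZMod p) = 0 := by exact_mod_cast h5
        rw [ZMod.natCast_eq_zero_iff] at h6
        have := Nat.le_of_dvd (by norm_num) h6
        omega
      · exact hw0 h5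
    rw [if_neg h2] at h1
    exact hκ h1.symm
  subst hw
  refine ⟨u, v, huv, fun x hx => hsupp x ?_⟩
  rw [hgL x, if_pos hx]
  exact hκ

/-- an even self-dual function with support of size less than `2p - 2` is a multiple of the
indicator function of a line through the origin -/
theorem prime_gap (hp3 : 3 ≤ p) {h : ZMod p × ZMod p → ℂ} (hs : SelfDual h)
    (he : ∀ x, h (-x) = h x) (h0 : h ≠ 0)
    (hc : (univ.filter fun x => h x ≠ 0).card < 2 * p - 2) :
    h 0 ≠ 0 ∧ (univ.filter fun x => h x ≠ 0).card = p := by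
  classical
  obtain ⟨u, v, huv, hL⟩ := contains_line hp3 hs he h0 hc
  have hz : h 0 ≠ 0 := hL 0 (by simp)
  refine ⟨hz, ?_⟩
  set h' : ZMod p × ZMod p → ℂ := fun x => h x - (if u * x.1 + v * x.2 = 0 then h 0 else 0) with hh'
  have hs' : SelfDual h' := by
    intro q
    have h1 := hs q
    have h2 := line_selfDual huv (h 0) q
    simp only [hh', mul_sub, sum_sub_distrib]
    rw [h1, h2]
  have he' : ∀ x, h' (-x) = h' x := by
    intro x
    simp only [hh']
    rw [he x]
    have : (u * (-x).1 + v * (-x).2 = 0) ↔ (u * x.1 + v * x.2 = 0) := by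
      simp only [Prod.fst_neg, Prod.snd_neg]
      constructor
      · intro h1; linear_combination (-1 : ZMod p) * h1
      · intro h1; linear_combination (-1 : ZMod p) * h1
    simp only [this]
  have hsub : ∀ x, h' x ≠ 0 → h x ≠ 0 := by
    intro x h1 h2
    apply h1
    simp only [hh']
    rw [h2, zero_sub, neg_eq_zero, ite_eq_right_iff]
    intro h3
    exact absurd h2 (hL x h3)
  have hc' : (univ.filter fun x => h' x ≠ 0).card < 2 * p - 2 := by
    refine lt_of_le_of_lt (card_le_card fun x hx => ?_) hc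
    rw [mem_filter] at hx ⊢
    exact ⟨hx.1, hsub x hx.2⟩
  have hh0 : h' = 0 := by
    by_contra hne
    obtain ⟨u', v', _, hL'⟩ := contains_line hp3 hs' he' hne hc'
    apply hL' 0 (by simp)
    simp [hh']
  have hx : ∀ x, h x ≠ 0 ↔ u * x.1 + v * x.2 = 0 := by
    intro x
    refine ⟨fun h1 => ?_, hL x⟩
    by_contra h2
    have h3 := congrFun hh0 x
    simp only [hh', if_neg h2, sub_zero, Pi.zero_apply] at h3
    exact h1 h3
  rw [filter_congr fun x _ => hx x, line_card huv]

end Pool.Agent.H125.SicGap
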