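import Pool.Agent.H125.SicGap.Unc

/-!
# Self-dual functions on `(ℤ/p)²` supported on few lines through the origin
-/

set_option autoImplicit false

open Finset

namespace Pool.Agent.H125.SicGap

variable {p : ℕ} [hp : Fact p.Prime]

/-- directions of the lines through the origin -/
def w : Option (ZMod p) → ZMod p × ZMod p
  | none => (0, 1)
  | some s => (1, s)

/-- the symplectic form -/
def sy (x y : ZMod p × ZMod p) : ZMod p := x.1 * y.2 - x.2 * y.1

lemma sy_w {i j : Option (ZMod p)} (h : i ≠ j) : sy (w i) (w j) ≠ 0 := by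
  unfold sy w
  rcases i with _ | s <;> rcases j with _ | t
  · exact absurd rfl h
  · simp
  · simp
  · simp only [one_mul, mul_one]
    intro h1
    exact h (by rw [sub_eq_zero.1 h1])

/-- summation along lines through the origin -/
lemma sum_lines (F : ZMod p × ZMod p → ℂ) (h0 : F 0 = 0) :
    ∑ x, F x = ∑ i : Option (ZMod p), ∑ c : ZMod p, F (c • w i) := by
  rw [Fintype.sum_prod_type, Fintype.sum_option]
  have h1 : ∀ s : ZMod p, ∑ c : ZMod p, F (c • w (some s)) =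
      ∑ c ∈ univ.erase (0 : ZMod p), F (c, c * s) := by
    intro s
    rw [← add_sum_erase univ _ (mem_univ (0 : ZMod p))]
    simp only [w, Prod.smul_mk, smul_eq_mul, mul_one, zero_mul]
    rw [show ((0, 0) : ZMod p × ZMod p) = 0 from rfl, h0, zero_add]
  have h2 : ∑ s : ZMod p, ∑ c : ZMod p, F (c • w (some s)) =
      ∑ c ∈ univ.erase (0 : ZMod p), ∑ s : ZMod p, F (c, c * s) := by
    rw [sum_congr rfl fun s _ => h1 s, sum_comm]
  rw [h2, ← add_sum_erase univ (fun x => ∑ y, F (x, y)) (mem_univ (0 : ZMod p))]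
  congr 1
  · refine sum_congr rfl fun c _ => ?_
    simp [w]
  · refine sum_congr rfl fun c hc => ?_
    have hc0 : c ≠ 0 := (mem_erase.1 hc).1
    symm
    refine Fintype.sum_equiv (Equiv.mulLeft₀ c hc0) _ _ fun s => rfl

/-- Parseval's identity on `ℤ/p` -/
lemma parseval (φ : ZMod p → ℂ) :
    ∑ s, ‖∑ c, ch (c * s) * φ c‖ ^ 2 = p * ∑ c, ‖φ c‖ ^ 2 := by
  have h1 : ∀ s : ZMod p, ((‖∑ c, ch (c * s) * φ c‖ ^ 2 : ℝ) : ℂ) =
      ∑ c, ∑ e, (φ c * (starRingEnd ℂ) (φ e)) * ch ((c - e) * s) := by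
    intro s
    rw [← Complex.normSq_eq_norm_sq, ← Complex.mul_conj, map_sum, sum_mul_sum]
    refine sum_congr rfl fun c _ => sum_congr rfl fun e _ => ?_
    rw [map_mul, ch_neg]
    have e1 : ch ((c - e) * s) = ch (c * s) * ch (-(e * s)) := by
      rw [← ch_add]; congr 1; ring
    rw [e1]
    ring
  have h2 : ((∑ s, ‖∑ c, ch (c * s) * φ c‖ ^ 2 : ℝ) : ℂ) = ((p * ∑ c, ‖φ c‖ ^ 2 : ℝ) : ℂ) := by
    rw [Complex.ofReal_sum, sum_congr rfl fun s _ => h1 s, sum_comm]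
    have h3 : ∀ c : ZMod p, ∑ s, ∑ e, (φ c * (starRingEnd ℂ) (φ e)) * ch ((c - e) * s) =
        (p : ℂ) * ((‖φ c‖ ^ 2 : ℝ) : ℂ) := by
      intro c
      rw [sum_comm]
      have h4 : ∀ e : ZMod p, ∑ s, (φ c * (starRingEnd ℂ) (φ e)) * ch ((c - e) * s) =
          if e = c then (p : ℂ) * (φ c * (starRingEnd ℂ) (φ c)) else 0 := by
        intro e
        rw [← mul_sum, sum_ch]
        by_cases he : e = c
        · rw [if_pos he, if_pos (by rw [he, sub_self]), he]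
          ring
        · rw [if_neg he, if_neg (fun h => he (sub_eq_zero.1 h).symm), mul_zero]
      rw [sum_congr rfl fun e _ => h4 e, sum_ite_eq' univ c, if_pos (mem_univ _),
        Complex.mul_conj, Complex.normSq_eq_norm_sq]
    rw [sum_congr rfl fun c _ => h3 c, ← mul_sum, ← Complex.ofReal_sum]
    push_cast
    rfl
  exact Complex.ofReal_inj.1 h2

/-- Cauchy–Schwarz -/
lemma norm_sum_sq {ι : Type*} (S : Finset ι) (z : ι → ℂ) :
    ‖∑ i ∈ S, z i‖ ^ 2 ≤ S.card * ∑ i ∈ S, ‖z i‖ ^ 2 := by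
  have h1 : ‖∑ i ∈ S, z i‖ ^ 2 ≤ (∑ i ∈ S, ‖z i‖) ^ 2 :=
    pow_le_pow_left₀ (norm_nonneg _) (norm_sum_le _ _) 2
  exact h1.trans sq_sum_le_card_mul_sum_sq

/-- the main inequality -/
lemma main_ineq (S : Finset (Option (ZMod p))) (k k' : ZMod p × ZMod p → ℂ)
    (hk : ∀ q, ∑ x, ch (x.1 * q.2 - x.2 * q.1) * k x = p * k' q)
    (h0 : k 0 = 0) (hS : ∀ i, i ∉ S → ∀ c : ZMod p, k (c • w i) = 0)
    (hl : ∀ i, ∑ c : ZMod p, k (c • w i) = 0) :
    (p : ℝ) * ∑ j ∈ S, ∑ t : ZMod p, ‖k' (t • w j)‖ ^ 2 ≤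
      ((S.card - 1 : ℕ) : ℝ) ^ 2 * ∑ i ∈ S, ∑ c : ZMod p, ‖k (c • w i)‖ ^ 2 := by
  classical
  have hp0 : (0 : ℝ) < p := by exact_mod_cast hp.out.pos
  have h1 : ∀ j ∈ S, ∀ t : ZMod p, (p : ℂ) * k' (t • w j) =
      ∑ i ∈ S.erase j, ∑ c : ZMod p, ch (c * (t * sy (w i) (w j))) * k (c • w i) := by
    intro j hj t
    rw [← hk, sum_lines _ (by rw [h0, mul_zero])]
    have e1 : ∀ i : Option (ZMod p), ∑ c : ZMod p,
        ch ((c • w i).1 * (t • w j).2 - (c • w i).2 * (t • w j).1) * k (c • w i) =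
        ∑ c : ZMod p, ch (c * (t * sy (w i) (w j))) * k (c • w i) := by
      intro i
      refine sum_congr rfl fun c _ => ?_
      congr 2
      simp only [Prod.smul_fst, Prod.smul_snd, smul_eq_mul, sy]
      ring
    rw [sum_congr rfl fun i _ => e1 i]
    symm
    refine sum_subset (subset_univ _) fun i _ hi => ?_
    by_cases hij : i = j
    · rw [hij]
      have e2 : ∀ c : ZMod p, ch (c * (t * sy (w j) (w j))) * k (c • w j) = k (c • w j) := by
        intro c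
        have : c * (t * sy (w j) (w j)) = 0 := by
          unfold sy; ring
        rw [this, ch_zero, one_mul]
      rw [sum_congr rfl fun c _ => e2 c, hl]
    · have hiS : i ∉ S := fun h => hi (mem_erase.2 ⟨hij, h⟩)
      exact sum_eq_zero fun c _ => by rw [hS i hiS, mul_zero]
  have h2 : ∀ j ∈ S, (p : ℝ) * (p * ∑ t : ZMod p, ‖k' (t • w j)‖ ^ 2) ≤
      (p : ℝ) * (((S.card - 1 : ℕ) : ℝ) * ∑ i ∈ S.erase j, ∑ c : ZMod p, ‖k (c • w i)‖ ^ 2) := by
    intro j hj
    have e3 : ∀ t : ZMod p, (p : ℝ) * (p * ‖k' (t • w j)‖ ^ 2) ≤ ((S.card - 1 : ℕ) : ℝ) *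
        ∑ i ∈ S.erase j, ‖∑ c : ZMod p, ch (c * (t * sy (w i) (w j))) * k (c • w i)‖ ^ 2 := by
      intro t
      have h3 : (p : ℝ) * (p * ‖k' (t • w j)‖ ^ 2) = ‖(p : ℂ) * k' (t • w j)‖ ^ 2 := by
        rw [norm_mul, Complex.norm_natCast]; ring
      rw [h3, h1 j hj t, ← card_erase_of_mem hj]
      exact norm_sum_sq _ _
    calc (p : ℝ) * (p * ∑ t : ZMod p, ‖k' (t • w j)‖ ^ 2)
        = ∑ t : ZMod p, (p : ℝ) * (p * ‖k' (t • w j)‖ ^ 2) := by rw [mul_sum, mul_sum]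
      _ ≤ ∑ t : ZMod p, ((S.card - 1 : ℕ) : ℝ) *
        ∑ i ∈ S.erase j, ‖∑ c : ZMod p, ch (c * (t * sy (w i) (w j))) * k (c • w i)‖ ^ 2 :=
          sum_le_sum fun t _ => e3 t
      _ = (p : ℝ) * (((S.card - 1 : ℕ) : ℝ) *
          ∑ i ∈ S.erase j, ∑ c : ZMod p, ‖k (c • w i)‖ ^ 2) := by
          rw [← mul_sum, sum_comm]
          have e4 : ∀ i ∈ S.erase j, ∑ t : ZMod p,
              ‖∑ c : ZMod p, ch (c * (t * sy (w i) (w j))) * k (c • w i)‖ ^ 2 =
              p * ∑ c : ZMod p, ‖k (c • w i)‖ ^ 2 := by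
            intro i hi
            rw [← parseval]
            have hne := sy_w (mem_erase.1 hi).1
            exact Fintype.sum_equiv (Equiv.mulRight₀ _ hne) _ _ fun s => rfl
          rw [sum_congr rfl e4, ← mul_sum]
          ring
  have h3 : ∀ j ∈ S, (p : ℝ) * ∑ t : ZMod p, ‖k' (t • w j)‖ ^ 2 ≤
      ((S.card - 1 : ℕ) : ℝ) * ∑ i ∈ S.erase j, ∑ c : ZMod p, ‖k (c • w i)‖ ^ 2 := fun j hj =>
    le_of_mul_le_mul_left (h2 j hj) hp0
  rw [mul_sum]
  refine (sum_le_sum h3).trans ?_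
  rw [← mul_sum, sq, mul_assoc]
  refine le_of_eq ?_
  congr 1
  have h4 : ∀ j ∈ S, ∑ i ∈ S.erase j, ∑ c : ZMod p, ‖k (c • w i)‖ ^ 2 =
      ∑ i ∈ S, (if i = j then 0 else ∑ c : ZMod p, ‖k (c • w i)‖ ^ 2) := by
    intro j hj
    rw [← add_sum_erase S _ hj, if_pos rfl, zero_add]
    refine sum_congr rfl fun i hi => ?_
    rw [if_neg (mem_erase.1 hi).1]
  rw [sum_congr rfl h4, sum_comm, mul_sum]
  refine sum_congr rfl fun i hi => ?_
  rw [← add_sum_erase S _ hi, if_pos rfl, zero_add]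
  have h5 : ∀ j ∈ S.erase i, (if i = j then 0 else ∑ c : ZMod p, ‖k (c • w i)‖ ^ 2) =
      ∑ c : ZMod p, ‖k (c • w i)‖ ^ 2 := fun j hj => if_neg (mem_erase.1 hj).1.symm
  rw [sum_congr rfl h5, sum_const, nsmul_eq_mul, card_erase_of_mem hi]

/-- every nonzero point is a multiple of one of the directions -/
lemma exists_w {x : ZMod p × ZMod p} (hx : x ≠ 0) : ∃ i, ∃ c : ZMod p, c ≠ 0 ∧ x = c • w i := by
  by_cases h1 : x.1 = 0
  · refine ⟨none, x.2, fun h2 => hx (Prod.ext h1 h2), ?_⟩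
    refine Prod.ext ?_ ?_
    · simp [w, h1]
    · simp [w]
  · refine ⟨some (x.2 / x.1), x.1, h1, ?_⟩
    refine Prod.ext ?_ ?_
    · simp [w]
    · simp only [w, Prod.smul_mk, smul_eq_mul]
      field_simp

/-- a self-dual function supported on `m` lines through the origin, `(m - 1)² < p`, is constant on each
of them except at the origin -/
theorem few_lines {h : ZMod p × ZMod p → ℂ} (hs : SelfDual h) (S : Finset (Option (ZMod p)))
    (hS : ∀ i, i ∉ S → ∀ c : ZMod p, c ≠ 0 → h (c • w i) = 0) (hm : (S.card - 1) ^ 2 < p)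
    (t : ZMod p) (ht : t ≠ 0) (x : ZMod p × ZMod p) : h (t • x) = h x := by
  classical
  have key : ∀ t : ZMod p, t ≠ 0 → ∀ q : ZMod p × ZMod p,
      ∑ x : ZMod p × ZMod p, ch (x.1 * q.2 - x.2 * q.1) * (h (t • x) - h x) =
        p * (h (t⁻¹ • q) - h q) := by
    intro t ht q
    have h1 : ∑ x : ZMod p × ZMod p, ch (x.1 * q.2 - x.2 * q.1) * h (t • x) = p * h (t⁻¹ • q) := by
      rw [← hs (t⁻¹ • q)]
      refine Fintype.sum_bijective (fun x : ZMod p × ZMod p => t • x) ?_ _ _ fun x => ?_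
      · refine Function.bijective_iff_has_inverse.2 ⟨fun x => t⁻¹ • x, fun x => ?_, fun x => ?_⟩
        · simp only [smul_smul, inv_mul_cancel₀ ht, one_smul]
        · simp only [smul_smul, mul_inv_cancel₀ ht, one_smul]
      · congr 2
        simp only [Prod.smul_fst, Prod.smul_snd, smul_eq_mul]
        field_simp
    simp only [mul_sub, sum_sub_distrib]
    rw [h1, hs q]
  have hz : ∀ t : ZMod p, t ≠ 0 → ∀ i, i ∉ S → ∀ c : ZMod p,
      h (t • (c • w i)) - h (c • w i) = 0 := by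
    intro t ht i hi c
    by_cases hc : c = 0
    · rw [hc, zero_smul, smul_zero, sub_self]
    · rw [smul_smul, hS i hi _ (mul_ne_zero ht hc), hS i hi c hc, sub_self]
  have hl : ∀ t : ZMod p, t ≠ 0 → ∀ i, ∑ c : ZMod p, (h (t • (c • w i)) - h (c • w i)) = 0 := by
    intro t ht i
    rw [sum_sub_distrib, sub_eq_zero]
    refine Fintype.sum_equiv (Equiv.mulLeft₀ t ht) _ _ fun c => ?_
    simp only [Equiv.mulLeft₀_apply, smul_smul]
  have hp0 : (0 : ℝ) < p := by exact_mod_cast hp.out.pos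
  have i1 := main_ineq S (fun x => h (t • x) - h x) (fun x => h (t⁻¹ • x) - h x) (key t ht)
    (by simp) (hz t ht) (hl t ht)
  have i2 := main_ineq S (fun x => h (t⁻¹ • x) - h x) (fun x => h (t • x) - h x)
    (by
      intro q
      have := key t⁻¹ (inv_ne_zero ht) q
      rw [inv_inv] at this
      exact this)
    (by simp) (hz _ (inv_ne_zero ht)) (hl _ (inv_ne_zero ht))
  set A := ∑ i ∈ S, ∑ c : ZMod p, ‖h (t • (c • w i)) - h (c • w i)‖ ^ 2 with hA
  set B := ∑ i ∈ S, ∑ c : ZMod p, ‖h (t⁻¹ • (c • w i)) - h (c • w i)‖ ^ 2 with hB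
  have hA0 : 0 ≤ A := sum_nonneg fun i _ => sum_nonneg fun c _ => by positivity
  have hB0 : 0 ≤ B := sum_nonneg fun i _ => sum_nonneg fun c _ => by positivity
  have hm' : (((S.card - 1 : ℕ) : ℝ)) ^ 2 < p := by exact_mod_cast hm
  have hA1 : A = 0 := by
    by_contra hne
    have hpos : 0 < A + B := by
      have := lt_of_le_of_ne hA0 (Ne.symm hne)
      linarith
    have h3 : (p : ℝ) * (A + B) ≤ (((S.card - 1 : ℕ) : ℝ)) ^ 2 * (A + B) := by
      linarith
    have h4 := le_of_mul_le_mul_right h3 hpos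
    linarith
  by_cases hx : x = 0
  · rw [hx, smul_zero]
  obtain ⟨i, c, hc, rfl⟩ := exists_w hx
  by_cases hi : i ∈ S
  · have h5 := (sum_eq_zero_iff_of_nonneg fun i _ => sum_nonneg fun c _ => by positivity).1 hA1 i hi
    have h6 := (sum_eq_zero_iff_of_nonneg fun c _ => by positivity).1 h5 c (mem_univ _)
    have h7 : ‖h (t • (c • w i)) - h (c • w i)‖ = 0 := by
      exact pow_eq_zero_iff (two_ne_zero) |>.1 h6
    exact sub_eq_zero.1 (norm_eq_zero.1 h7)
  · exact sub_eq_zero.1 (hz t ht i hi c)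

end Pool.Agent.H125.SicGap
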