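import Mathlib

/-!
# Functions on the affine plane over `𝔽_p` with constant sums over parallel lines

Let `k` be a field of characteristic `p` and `g : 𝔽_p² → k` a function such that for every
direction the sums of `g` over the `p` parallel lines are equal.  If `g` is nonzero at fewer than
`2 p - 2` points (and at one at least) then `g` is a constant times the indicator function of a line.
(The second weight of the code spanned by the lines of the affine plane of order `p`.)
-/

set_option autoImplicit false

open Finset Polynomial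

namespace Pool.Agent.H125.SicGap

variable {p : ℕ} [hp : Fact p.Prime] {k : Type*} [Field k] [CharP k p]

/-- the inclusion of the prime field -/
noncomputable abbrev io (p : ℕ) (k : Type*) [Field k] [CharP k p] : ZMod p →+* k :=
  ZMod.castHom (dvd_refl p) k

lemma io_inj : Function.Injective (io p k) := (io p k).injective

lemma delta (a b : ZMod p) : (1 : k) - (io p k a - io p k b) ^ (p - 1) = if a = b then 1 else 0 := by
  rw [← map_sub, ← map_pow]
  split_ifs with h
  · rw [h, sub_self, zero_pow (by have := hp.out.two_le; omega), map_zero, sub_zero]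
  · rw [ZMod.pow_card_sub_one_eq_one (sub_ne_zero.2 h), map_one, sub_self]

/-- interpolation: a function with vanishing moments is a polynomial of small degree -/
lemma interp (M : ZMod p → k) (j : ℕ) (hj : j ≤ p - 1)
    (h : ∀ i, i + j ≤ p - 2 → ∑ a, io p k a ^ i * M a = 0) :
    ∃ Q : k[X], Q.natDegree ≤ j ∧ ∀ a, M a = Q.eval (io p k a) := by
  have hp2 := hp.out.two_le
  refine ⟨C (∑ b, M b) - ∑ i ∈ range (j + 1),
    C (((p - 1).choose i : k) * ∑ b, (-io p k b) ^ (p - 1 - i) * M b) * X ^ i, ?_, fun a => ?_⟩
  · refine (natDegree_sub_le _ _).trans (max_le (by rw [natDegree_C]; exact Nat.zero_le _) ?_)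
    refine natDegree_sum_le_of_forall_le _ _ fun i hi => ?_
    refine (natDegree_C_mul_X_pow_le _ _).trans ?_
    have := mem_range.1 hi
    omega
  · have h1 : M a = ∑ b, M b * (1 - (io p k a - io p k b) ^ (p - 1)) := by
      simp_rw [delta]
      simp
    have h2 : ∀ b, (io p k a - io p k b) ^ (p - 1) =
        ∑ i ∈ range p, io p k a ^ i * (-io p k b) ^ (p - 1 - i) * ((p - 1).choose i : k) := by
      intro b
      rw [sub_eq_add_neg, add_pow, show p - 1 + 1 = p by omega]
    have h3 : ∑ b, M b * (io p k a - io p k b) ^ (p - 1) =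
        ∑ i ∈ range p, io p k a ^ i * (((p - 1).choose i : k) *
          ∑ b, (-io p k b) ^ (p - 1 - i) * M b) := by
      simp_rw [h2, mul_sum]
      rw [sum_comm]
      refine sum_congr rfl fun i _ => sum_congr rfl fun b _ => by ring
    have h4 : ∑ i ∈ range p, io p k a ^ i * (((p - 1).choose i : k) *
          ∑ b, (-io p k b) ^ (p - 1 - i) * M b) = ∑ i ∈ range (j + 1),
          io p k a ^ i * (((p - 1).choose i : k) * ∑ b, (-io p k b) ^ (p - 1 - i) * M b) := by
      symm
      refine sum_subset (fun i hi => mem_range.2 (by have := mem_range.1 hi; omega)) ?_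
      intro i hi hi2
      have hi := mem_range.1 hi
      have hi2 : ¬ i < j + 1 := fun h => hi2 (mem_range.2 h)
      have h5 : ∑ b, (-io p k b) ^ (p - 1 - i) * M b = 0 := by
        have h6 := h (p - 1 - i) (by omega)
        have h7 : ∑ b, (-io p k b) ^ (p - 1 - i) * M b =
            (-1) ^ (p - 1 - i) * ∑ b, io p k b ^ (p - 1 - i) * M b := by
          rw [mul_sum]
          refine sum_congr rfl fun b _ => ?_
          rw [neg_pow]; ring
        rw [h7, h6, mul_zero]
      rw [h5, mul_zero, mul_zero]
    rw [h1]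
    simp_rw [mul_sub, mul_one]
    rw [sum_sub_distrib, h3, h4, eval_sub, eval_C, eval_finsetSum]
    congr 1
    refine sum_congr rfl fun i _ => ?_
    rw [eval_mul, eval_C, eval_pow, eval_X]
    ring

/-- from powers of linear forms to monomials -/
lemma moments (g : ZMod p → ZMod p → k) (N : ℕ) (hN : N < p)
    (h : ∀ t : ZMod p, ∀ n, n ≤ N → ∑ a, ∑ y, g a y * (io p k a + io p k t * io p k y) ^ n = 0)
    (i j : ℕ) (hij : i + j ≤ N) : ∑ a, io p k a ^ i * ∑ y, g a y * io p k y ^ j = 0 := by
  set P : k[X] := ∑ l ∈ range (i + j + 1),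
    C (((i + j).choose l : k) * ∑ a, ∑ y, g a y * (io p k a ^ (i + j - l) * io p k y ^ l)) * X ^ l with hP
  have hdeg : P.natDegree < p := by
    have : P.natDegree ≤ i + j := by
      refine natDegree_sum_le_of_forall_le _ _ fun l hl => ?_
      refine (natDegree_C_mul_X_pow_le _ _).trans ?_
      have := mem_range.1 hl
      omega
    omega
  have heval : ∀ t : ZMod p, P.eval (io p k t) = 0 := by
    intro t
    rw [← h t (i + j) hij, hP, eval_finsetSum]
    have h1 : ∀ a y : ZMod p, (io p k a + io p k t * io p k y) ^ (i + j) =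
        ∑ l ∈ range (i + j + 1), (io p k t * io p k y) ^ l * io p k a ^ (i + j - l) *
          ((i + j).choose l : k) := by
      intro a y
      rw [add_comm, add_pow]
    have h2 : ∀ l, eval (io p k t) (C (((i + j).choose l : k) *
        ∑ a, ∑ y, g a y * (io p k a ^ (i + j - l) * io p k y ^ l)) * X ^ l) =
        ∑ a, ∑ y, g a y * ((io p k t * io p k y) ^ l * io p k a ^ (i + j - l) *
          ((i + j).choose l : k)) := by
      intro l
      rw [eval_mul, eval_C, eval_pow, eval_X, mul_sum, sum_mul]
      refine sum_congr rfl fun a _ => ?_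
      rw [mul_sum, sum_mul]
      refine sum_congr rfl fun y _ => ?_
      rw [mul_pow]; ring
    rw [sum_congr rfl fun l _ => h2 l, sum_comm]
    refine sum_congr rfl fun a _ => ?_
    rw [sum_comm]
    refine sum_congr rfl fun y _ => ?_
    rw [h1, mul_sum]
  have hP0 : P = 0 := by
    classical
    refine eq_zero_of_natDegree_lt_card_of_eval_eq_zero' P (univ.image (io p k)) ?_ ?_
    · intro x hx
      obtain ⟨t, -, rfl⟩ := mem_image.1 hx
      exact heval t
    · rw [card_image_of_injective _ io_inj, card_univ, ZMod.card]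
      exact hdeg
  have hc : P.coeff j = ((i + j).choose j : k) *
      ∑ a, ∑ y, g a y * (io p k a ^ (i + j - j) * io p k y ^ j) := by
    rw [hP, finsetSum_coeff]
    simp_rw [coeff_C_mul_X_pow]
    rw [sum_ite_eq, if_pos (mem_range.2 (by omega))]
  rw [hP0, coeff_zero] at hc
  have hch : ((i + j).choose j : k) ≠ 0 := by
    intro h0
    rw [CharP.cast_eq_zero_iff k p] at h0
    have h1 : p ∣ (i + j).factorial := h0.trans (by
      rw [← Nat.choose_mul_factorial_mul_factorial (show j ≤ i + j by omega), mul_assoc]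
      exact Dvd.intro _ rfl)
    rw [hp.out.dvd_factorial] at h1
    omega
  have h2 := (mul_eq_zero.1 hc.symm).resolve_left hch
  rw [← h2]
  refine sum_congr rfl fun a _ => ?_
  rw [mul_sum]
  refine sum_congr rfl fun y _ => ?_
  rw [Nat.add_sub_cancel]
  ring

variable [DecidableEq k]

/-- Vandermonde -/
lemma card_of_moments (c : ZMod p → k) (hc : c ≠ 0) (r : ℕ)
    (h : ∀ j, j < r → ∑ y, c y * io p k y ^ j = 0) :
    r + 1 ≤ (univ.filter fun y => c y ≠ 0).card := by
  classical
  by_contra hlt
  push Not at hlt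
  set S := univ.filter fun y => c y ≠ 0 with hS
  obtain ⟨y0, hy0⟩ : ∃ y, c y ≠ 0 := by
    by_contra h0
    push Not at h0
    exact hc (funext h0)
  have hy0S : y0 ∈ S := mem_filter.2 ⟨mem_univ _, hy0⟩
  set P : k[X] := ∏ y ∈ S.erase y0, (X - C (io p k y)) with hP
  have hdeg : P.natDegree < r := by
    rw [hP, natDegree_finsetProd_X_sub_C_eq_card, card_erase_of_mem hy0S]
    have : 0 < S.card := card_pos.2 ⟨y0, hy0S⟩
    omega
  have h1 : ∑ y, c y * P.eval (io p k y) = 0 := by
    have h2 : ∀ y, P.eval (io p k y) = ∑ j ∈ range r, P.coeff j * io p k y ^ j := fun y =>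
      eval_eq_sum_range' hdeg _
    simp_rw [h2, mul_sum]
    rw [sum_comm]
    refine sum_eq_zero fun j hj => ?_
    have h3 := h j (mem_range.1 hj)
    calc ∑ y, c y * (P.coeff j * io p k y ^ j) = P.coeff j * ∑ y, c y * io p k y ^ j := by
          rw [mul_sum]; exact sum_congr rfl fun y _ => by ring
      _ = 0 := by rw [h3, mul_zero]
  rw [sum_eq_single y0] at h1
  · rcases mul_eq_zero.1 h1 with h2 | h2
    · exact hy0 h2
    · rw [hP, eval_prod, prod_eq_zero_iff] at h2
      obtain ⟨y, hy, h3⟩ := h2
      rw [eval_sub, eval_X, eval_C, sub_eq_zero] at h3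
      exact (mem_erase.1 hy).1 (io_inj h3).symm
  · intro y _ hy
    by_cases hcy : c y = 0
    · rw [hcy, zero_mul]
    · have : P.eval (io p k y) = 0 := by
        rw [hP, eval_prod]
        refine prod_eq_zero (mem_erase.2 ⟨hy, mem_filter.2 ⟨mem_univ _, hcy⟩⟩) ?_
        rw [eval_sub, eval_X, eval_C, sub_self]
      rw [this, mul_zero]
  · intro h; exact absurd (mem_univ _) h

/-- the number of nonzero values in the column `a` -/
noncomputable def Nc (g : ZMod p → ZMod p → k) (a : ZMod p) : ℕ :=
  (univ.filter fun y => g a y ≠ 0).card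

omit [CharP k p] in
lemma sum_Nc (g : ZMod p → ZMod p → k) :
    ∑ a, Nc g a = (univ.filter fun x : ZMod p × ZMod p => g x.1 x.2 ≠ 0).card := by
  classical
  unfold Nc
  simp_rw [card_filter]
  rw [← univ_product_univ, sum_product]

/-- columns with nonzero sums: a small support is a line -/
theorem line_of_small (hp3 : 3 ≤ p) (g : ZMod p → ZMod p → k)
    (h : ∀ t : ZMod p, ∀ n, n ≤ p - 2 →
      ∑ a, ∑ y, g a y * (io p k a + io p k t * io p k y) ^ n = 0)
    {σ : k} (hσ : σ ≠ 0) (hcol : ∀ a, ∑ y, g a y = σ)
    (hcard : ∑ a, Nc g a < 2 * p - 2) :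
    ∃ α β : ZMod p, ∀ a y, g a y = if y = α * a + β then σ else 0 := by
  classical
  have hpos : ∀ a, 1 ≤ Nc g a := by
    intro a
    by_contra h0
    push Not at h0
    have h1 : Nc g a = 0 := by omega
    unfold Nc at h1
    rw [card_eq_zero, filter_eq_empty_iff] at h1
    apply hσ
    rw [← hcol a]
    refine sum_eq_zero fun y hy => ?_
    exact not_not.1 (h1 hy)
  set A := univ.filter fun a => Nc g a = 1 with hA
  have hcp : (univ : Finset (ZMod p)).card = p := by rw [card_univ, ZMod.card]
  have hAc : A.card ≤ p := (card_le_card (subset_univ _)).trans hcp.le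
  have hA3 : 3 ≤ A.card := by
    have h1 : 2 * p - A.card ≤ ∑ a, Nc g a := by
      have h2 : ∀ a, 2 - (if a ∈ A then 1 else 0) ≤ Nc g a := by
        intro a
        split_ifs with ha
        · exact hpos a
        · have h3 := hpos a
          have h4 : Nc g a ≠ 1 := fun h5 => ha (mem_filter.2 ⟨mem_univ _, h5⟩)
          omega
      have h3 : ∑ a : ZMod p, (2 - (if a ∈ A then 1 else 0)) + A.card = 2 * p := by
        have h4 : A.card = ∑ a : ZMod p, if a ∈ A then 1 else 0 := by
          rw [← card_filter, filter_mem_eq_inter, univ_inter]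
        rw [h4, ← sum_add_distrib]
        have h5 : ∀ a : ZMod p, (2 - (if a ∈ A then 1 else 0)) + (if a ∈ A then 1 else 0) = 2 := by
          intro a; split_ifs <;> rfl
        simp_rw [h5]
        rw [sum_const, hcp, smul_eq_mul, mul_comm]
      have h4 := sum_le_sum fun a (_ : a ∈ (univ : Finset (ZMod p))) => h2 a
      omega
    omega
  -- the single points
  have hb : ∀ a ∈ A, ∃ b, g a b = σ ∧ ∀ y, y ≠ b → g a y = 0 := by
    intro a ha
    have h1 : Nc g a = 1 := (mem_filter.1 ha).2
    unfold Nc at h1
    obtain ⟨b, hb⟩ := card_eq_one.1 h1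
    have h2 : ∀ y, y ≠ b → g a y = 0 := by
      intro y hy
      by_contra h3
      have : y ∈ (univ.filter fun y => g a y ≠ 0) := mem_filter.2 ⟨mem_univ _, h3⟩
      rw [hb, mem_singleton] at this
      exact hy this
    refine ⟨b, ?_, h2⟩
    rw [← hcol a, sum_eq_single b (fun y _ hy => h2 y hy) (fun h => absurd (mem_univ _) h)]
  choose! b hb1 hb2 using hb
  have hmb : ∀ a ∈ A, ∀ j, ∑ y, g a y * io p k y ^ j = σ * io p k (b a) ^ j := by
    intro a ha j
    rw [sum_eq_single (b a) (fun y _ hy => by rw [hb2 a ha y hy, zero_mul])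
      (fun h => absurd (mem_univ _) h), hb1 a ha]
  have hmom := moments g (p - 2) (by omega) h
  have hQ : ∀ j, j ≤ p - 2 → ∃ Q : k[X], Q.natDegree ≤ j ∧
      ∀ a, ∑ y, g a y * io p k y ^ j = Q.eval (io p k a) := fun j hj =>
    interp _ j (by omega) fun i hi => hmom i j hi
  obtain ⟨a1, ha1, a2, ha2, h12⟩ := one_lt_card.1 (show 1 < A.card by omega)
  set α : ZMod p := (b a1 - b a2) / (a1 - a2) with hα
  set β : ZMod p := b a1 - α * a1 with hβ
  have h12' : a1 - a2 ≠ 0 := sub_ne_zero.2 h12
  have hl1 : b a1 = α * a1 + β := by rw [hβ]; ring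
  have hl2 : b a2 = α * a2 + β := by
    have : α * (a1 - a2) = b a1 - b a2 := by rw [hα]; field_simp
    rw [hβ]; linear_combination this
  have key : ∀ j, j ≤ p - 2 → j < A.card → (∀ a ∈ A, j ≠ 0 → b a = α * a + β) →
      ∀ a, ∑ y, g a y * io p k y ^ j = σ * io p k (α * a + β) ^ j := by
    intro j hj hjA hline a
    obtain ⟨Q, hQd, hQe⟩ := hQ j hj
    have h0 : Q - C σ * (C (io p k α) * X + C (io p k β)) ^ j = 0 := by
      refine eq_zero_of_natDegree_lt_card_of_eval_eq_zero' _ (A.image (io p k)) ?_ ?_
      · intro x hx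
        obtain ⟨c, hc, rfl⟩ := mem_image.1 hx
        rw [eval_sub, eval_mul, eval_pow, eval_add, eval_mul, eval_C, eval_C, eval_C, eval_X,
          ← hQe c, hmb c hc j]
        by_cases hj0 : j = 0
        · rw [hj0]; simp
        · rw [hline c hc hj0, map_add, map_mul, sub_self]
      · rw [card_image_of_injective _ io_inj]
        refine lt_of_le_of_lt ?_ hjA
        refine (natDegree_sub_le _ _).trans (max_le hQd ?_)
        refine (natDegree_C_mul_le _ _).trans ?_
        refine natDegree_pow_le.trans ?_
        have : (C (io p k α) * X + C (io p k β)).natDegree ≤ 1 := natDegree_linear_le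
        calc j * (C (io p k α) * X + C (io p k β)).natDegree ≤ j * 1 := Nat.mul_le_mul_left _ this
          _ = j := mul_one _
    rw [hQe a, sub_eq_zero.1 h0, eval_mul, eval_pow, eval_add, eval_mul, eval_C, eval_C, eval_C,
      eval_X, map_add, map_mul]
  have hline : ∀ a ∈ A, b a = α * a + β := by
    obtain ⟨Q, hQd, hQe⟩ := hQ 1 (by omega)
    have h0 : Q - C σ * (C (io p k α) * X + C (io p k β)) = 0 := by
      refine eq_zero_of_natDegree_lt_card_of_eval_eq_zero' _
        ((({a1, a2} : Finset (ZMod p))).image (io p k)) ?_ ?_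
      · intro x hx
        obtain ⟨c, hc, rfl⟩ := mem_image.1 hx
        have hcA : c ∈ A ∧ b c = α * c + β := by
          rw [mem_insert, mem_singleton] at hc
          rcases hc with rfl | rfl
          · exact ⟨ha1, hl1⟩
          · exact ⟨ha2, hl2⟩
        rw [eval_sub, eval_mul, eval_add, eval_mul, eval_C, eval_C, eval_C, eval_X,
          ← hQe c, hmb c hcA.1 1, hcA.2, map_add, map_mul, pow_one, sub_self]
      · rw [card_image_of_injective _ io_inj, card_pair h12]
        refine lt_of_le_of_lt ?_ one_lt_two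
        refine (natDegree_sub_le _ _).trans (max_le hQd ?_)
        exact (natDegree_C_mul_le _ _).trans natDegree_linear_le
    intro a ha
    have h1 := hQe a
    rw [hmb a ha 1, sub_eq_zero.1 h0, eval_mul, eval_add, eval_mul, eval_C, eval_C, eval_C, eval_X,
      pow_one, ← map_mul, ← map_add] at h1
    exact io_inj (mul_left_cancel₀ hσ h1)
  -- columns outside `A`
  have hcolN : ∀ a, a ∉ A → min A.card (p - 1) ≤ Nc g a := by
    intro a ha
    set c : ZMod p → k := fun y => g a y - if y = α * a + β then σ else 0 with hc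
    have hc0 : c ≠ 0 := by
      intro h0
      apply ha
      refine mem_filter.2 ⟨mem_univ _, ?_⟩
      unfold Nc
      rw [card_eq_one]
      refine ⟨α * a + β, ?_⟩
      ext y
      rw [mem_filter, mem_singleton]
      have h1 := congrFun h0 y
      simp only [hc, Pi.zero_apply, sub_eq_zero] at h1
      rw [h1]
      constructor
      · rintro ⟨-, h2⟩
        by_contra h3
        rw [if_neg h3] at h2
        exact h2 rfl
      · intro h2
        rw [if_pos h2]
        exact ⟨mem_univ _, hσ⟩
    have h1 := card_of_moments c hc0 (min A.card (p - 1)) (by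
      intro j hj
      rw [lt_min_iff] at hj
      have h2 := key j (by omega) hj.1 (fun a ha _ => hline a ha) a
      simp only [hc, sub_mul, sum_sub_distrib]
      rw [h2, sub_eq_zero]
      rw [sum_eq_single (α * a + β)]
      · rw [if_pos rfl]
      · intro y _ hy; rw [if_neg hy, zero_mul]
      · intro h; exact absurd (mem_univ _) h)
    have h2 : (univ.filter fun y => c y ≠ 0).card ≤ Nc g a + 1 := by
      unfold Nc
      refine (card_le_card (t := insert (α * a + β) (univ.filter fun y => g a y ≠ 0)) ?_).trans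
        (card_insert_le _ _)
      intro y hy
      rw [mem_insert]
      by_cases hy2 : y = α * a + β
      · left; exact hy2
      · right
        refine mem_filter.2 ⟨mem_univ _, ?_⟩
        have h3 := (mem_filter.1 hy).2
        simp only [hc, if_neg hy2, sub_zero] at h3
        exact h3
    omega
  have hAp : A.card = p := by
    by_contra hne
    have hlt : A.card ≤ p - 1 := by omega
    have h1 : A.card + (p - A.card) * A.card ≤ ∑ a, Nc g a := by
      have h2 : ∀ a, (if a ∈ A then 1 else A.card) ≤ Nc g a := by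
        intro a
        split_ifs with ha
        · exact hpos a
        · have := hcolN a ha
          rwa [min_eq_left hlt] at this
      refine le_trans ?_ (sum_le_sum fun a (_ : a ∈ (univ : Finset (ZMod p))) => h2 a)
      rw [sum_ite, sum_const, sum_const, filter_mem_eq_inter, univ_inter, smul_eq_mul, mul_one,
        smul_eq_mul, filter_not, filter_mem_eq_inter, univ_inter, ← compl_eq_univ_sdiff, card_compl,
        ZMod.card]
    obtain ⟨m, hm⟩ : ∃ m, m = A.card := ⟨_, rfl⟩
    obtain ⟨u, hu⟩ : ∃ u, m = 2 + u := ⟨m - 2, by omega⟩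
    obtain ⟨v, hv⟩ : ∃ v, p = m + 1 + v := ⟨p - 1 - m, by omega⟩
    rw [← hm] at h1
    have h3 : p - m = 1 + v := by omega
    rw [h3] at h1
    have h4 : 2 * p - 2 ≤ m + (1 + v) * m := by
      rw [hv, hu]
      have : (1 + v) * (2 + u) = 2 + u + v * 2 + v * u := by ring
      rw [this]
      have := Nat.zero_le (v * u)
      omega
    omega
  have hAu : ∀ a, a ∈ A := by
    have : A = univ := (card_eq_iff_eq_univ A).1 (by rw [hAp, ZMod.card])
    intro a; rw [this]; exact mem_univ _
  refine ⟨α, β, fun a y => ?_⟩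
  split_ifs with hy
  · rw [hy, ← hline a (hAu a)]
    exact hb1 a (hAu a)
  · exact hb2 a (hAu a) y (by rw [hline a (hAu a)]; exact hy)

/-- columns with sums zero, and a column with exactly two nonzero values -/
theorem large_of_two (hp3 : 3 ≤ p) (g : ZMod p → ZMod p → k)
    (h : ∀ t : ZMod p, ∀ n, n ≤ p - 1 →
      ∑ a, ∑ y, g a y * (io p k a + io p k t * io p k y) ^ n = 0)
    (hcol : ∀ a, ∑ y, g a y = 0) {a0 : ZMod p} (h0 : Nc g a0 = 2) :
    2 * p ≤ ∑ a, Nc g a := by
  classical
  have hcp : (univ : Finset (ZMod p)).card = p := by rw [card_univ, ZMod.card]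
  have hmom := moments g (p - 1) (by omega) h
  obtain ⟨Q, hQd, hQe⟩ := interp (fun a => ∑ y, g a y * io p k y ^ 1) 0 (by omega)
    (fun i hi => hmom i 1 (by omega))
  have hQc : Q = C (Q.coeff 0) := eq_C_of_natDegree_le_zero hQd
  have hκ : ∀ a, ∑ y, g a y * io p k y ^ 1 = Q.coeff 0 := by
    intro a
    have := hQe a
    rw [hQc, eval_C] at this
    simpa using this
  have hκ0 : Q.coeff 0 ≠ 0 := by
    unfold Nc at h0
    obtain ⟨y1, y2, h12, hs⟩ := card_eq_two.1 h0
    have hz : ∀ y, y ≠ y1 → y ≠ y2 → g a0 y = 0 := by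
      intro y hy1 hy2
      by_contra hne
      have : y ∈ (univ.filter fun y => g a0 y ≠ 0) := mem_filter.2 ⟨mem_univ _, hne⟩
      rw [hs, mem_insert, mem_singleton] at this
      rcases this with h | h
      · exact hy1 h
      · exact hy2 h
    have hy1 : g a0 y1 ≠ 0 := by
      have : y1 ∈ (univ.filter fun y => g a0 y ≠ 0) := by rw [hs]; simp
      exact (mem_filter.1 this).2
    have hsum : ∀ φ : ZMod p → k, ∑ y, g a0 y * φ y = g a0 y1 * φ y1 + g a0 y2 * φ y2 := by
      intro φ
      rw [← sum_pair (f := fun y => g a0 y * φ y) h12]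
      symm
      refine sum_subset (subset_univ _) fun y _ hy => ?_
      rw [mem_insert, mem_singleton, not_or] at hy
      rw [hz y hy.1 hy.2, zero_mul]
    have e1 := hsum (fun _ => 1)
    simp only [mul_one] at e1
    rw [hcol a0] at e1
    have e2 := hsum (fun y => io p k y ^ 1)
    rw [hκ a0] at e2
    rw [e2]
    intro h3
    have h4 : g a0 y1 * (io p k y1 - io p k y2) = 0 := by
      linear_combination h3 + io p k y2 * e1
    rcases mul_eq_zero.1 h4 with h5 | h5
    · exact hy1 h5
    · exact h12 (io_inj (sub_eq_zero.1 h5))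
  have h2 : ∀ a, 2 ≤ Nc g a := by
    intro a
    by_contra hlt
    push Not at hlt
    unfold Nc at hlt
    have hle : (univ.filter fun y => g a y ≠ 0).card ≤ 1 := by omega
    rw [card_le_one_iff_subset_singleton] at hle
    obtain ⟨y1, hy1⟩ := hle
    have hz : ∀ y, y ≠ y1 → g a y = 0 := by
      intro y hy
      by_contra hne
      have := hy1 (mem_filter.2 ⟨mem_univ y, hne⟩)
      exact hy (mem_singleton.1 this)
    have e1 := hcol a
    rw [sum_eq_single y1 (fun y _ hy => hz y hy) (fun h => absurd (mem_univ _) h)] at e1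
    have e2 := hκ a
    rw [sum_eq_single y1 (fun y _ hy => by rw [hz y hy, zero_mul])
      (fun h => absurd (mem_univ _) h), e1, zero_mul] at e2
    exact hκ0 e2.symm
  calc 2 * p = ∑ a : ZMod p, 2 := by rw [sum_const, hcp, smul_eq_mul, mul_comm]
    _ ≤ _ := sum_le_sum fun a _ => h2 a

end Pool.Agent.H125.SicGap
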