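import Pool.Agent.H125.SicGap.Unc

/-!
# A vector in dimension three with exactly four exceptional overlaps
-/

set_option autoImplicit false

open Finset

namespace Pool.Agent.H125.SicGap

/-- sums over `ℤ/3` -/
lemma sum3 {M : Type*} [AddCommMonoid M] (F : ZMod 3 → M) : ∑ x, F x = F 0 + F 1 + F 2 :=
  Fin.sum_univ_three F

/-- the primitive cube root of unity -/
lemma cube : ∃ y : ℝ, y ^ 2 = 3 / 4 ∧ ch (1 : ZMod 3) = ⟨-1 / 2, y⟩ ∧ ch (2 : ZMod 3) = ⟨-1 / 2, -y⟩ := by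
  have h1 := sum_ch (d := 3) 1
  rw [sum3, if_neg (by decide)] at h1
  simp only [one_mul] at h1
  rw [ch_zero] at h1
  have h2 : (starRingEnd ℂ) (ch (1 : ZMod 3)) = ch (2 : ZMod 3) := by
    rw [ch_neg]
    rfl
  have h3 := ch_norm (1 : ZMod 3)
  set z := ch (1 : ZMod 3) with hz
  rw [← h2] at h1 ⊢
  have h4 := congrArg Complex.re h1
  simp only [Complex.add_re, Complex.one_re, Complex.conj_re, Complex.zero_re] at h4
  have h5 : z.re = -1 / 2 := by linarith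
  have h6 : Complex.normSq z = 1 := by rw [Complex.normSq_eq_norm_sq, h3, one_pow]
  rw [Complex.normSq_apply, h5] at h6
  refine ⟨z.im, by nlinarith, ?_, ?_⟩
  · apply Complex.ext <;> simp [h5]
  · apply Complex.ext <;> simp [h5]

/-- the overlap -/
noncomputable def ov {d : ℕ} [NeZero d] (ψ : ZMod d → ℂ) (a b : ZMod d) : ℂ :=
  ∑ x, (starRingEnd ℂ) (ψ (x + a)) * (ch (b * x) * ψ x)

/-- a vector in dimension three with exactly four exceptions -/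
lemma three : ∃ ψ : ZMod 3 → ℂ, ∑ j, ‖ψ j‖ ^ 2 = 1 ∧ ‖ov ψ 0 1‖ ^ 2 = 1 / 4 ∧
    ‖ov ψ 1 0‖ ^ 2 = 1 / 4 ∧ ‖ov ψ 1 1‖ ^ 2 ≠ 1 / 4 ∧ ‖ov ψ 1 2‖ ^ 2 ≠ 1 / 4 := by
  obtain ⟨y, hy, hc1, hc2⟩ := cube
  obtain ⟨r, hr⟩ : ∃ r : ℝ, r ^ 2 = 1 / 6 := ⟨√(1 / 6), Real.sq_sqrt (by norm_num)⟩
  obtain ⟨s, hs⟩ : ∃ s : ℝ, s ^ 2 = 2 := ⟨√2, Real.sq_sqrt (by norm_num)⟩
  have hy0 : y ≠ 0 := by
    rintro rfl
    norm_num at hy
  obtain ⟨ψ, h0, h1, h2⟩ : ∃ ψ : ZMod 3 → ℂ, ψ 0 = ⟨r, 0⟩ ∧ ψ 1 = ⟨-r, 0⟩ ∧ ψ 2 = ⟨r * s, r * s⟩ :=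
    ⟨fun j => if j = 0 then ⟨r, 0⟩ else if j = 1 then ⟨-r, 0⟩ else ⟨r * s, r * s⟩, by simp, by simp,
      by
        have e : (2 : ZMod 3) ≠ 0 := by decide
        have e' : (2 : ZMod 3) ≠ 1 := by decide
        simp only [e, e', if_false]⟩
  have e1 : (1 : ZMod 3) + 1 = 2 := rfl
  have e2 : (2 : ZMod 3) + 1 = 0 := rfl
  have e3 : (2 : ZMod 3) * 2 = 1 := rfl
  have hr4 : r ^ 4 = 1 / 36 := by
    have : r ^ 4 = (r ^ 2) ^ 2 := by ring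
    rw [this, hr]; norm_num
  refine ⟨ψ, ?_, ?_, ?_, ?_, ?_⟩
  · rw [sum3, h0, h1, h2]
    simp only [← Complex.normSq_eq_norm_sq, Complex.normSq_mk]
    have : (r * s) * (r * s) = 1 / 3 := by
      have : (r * s) * (r * s) = r ^ 2 * s ^ 2 := by ring
      rw [this, hr, hs]; norm_num
    rw [this]
    nlinarith
  all_goals
    unfold ov
    rw [sum3, ← Complex.normSq_eq_norm_sq]
    simp only [zero_add, add_zero, e1, e2, e3, h0, h1, h2, mul_zero, zero_mul, one_mul, mul_one,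
      ch_zero, hc1, hc2, Complex.normSq_apply, Complex.add_re, Complex.add_im, Complex.mul_re,
      Complex.mul_im, Complex.conj_re, Complex.conj_im]
  · refine Eq.trans (b := r ^ 4 * ((1 / 2 - s ^ 2) ^ 2 + (y * (1 - 2 * s ^ 2)) ^ 2)) (by ring) ?_
    rw [hr4, hs]
    linear_combination (1 / 4 : ℝ) * hy
  · refine Eq.trans (b := r ^ 4 * (1 + 4 * s ^ 2)) (by ring) ?_
    rw [hr4, hs]
    norm_num
  · intro h
    have h' : r ^ 4 * (1 + s ^ 2 * (1 + 2 * y) ^ 2) = 1 / 4 := by rw [← h]; ring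
    rw [hr4, hs] at h'
    apply hy0
    linear_combination (9 / 2 : ℝ) * h' - hy
  · intro h
    have h' : r ^ 4 * (1 + s ^ 2 * (1 - 2 * y) ^ 2) = 1 / 4 := by rw [← h]; ring
    rw [hr4, hs] at h'
    apply hy0
    linear_combination (-9 / 2 : ℝ) * h' + hy

end Pool.Agent.H125.SicGap
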